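import Mathlib
import Pool.Agent.H693R3.SpecDir4

set_option autoImplicit false

namespace Pool.Agent.Results.MP_ec4324_co.MissingDirectionCounts

open Pool.Agent

/-- `S` is equidistributed in the direction `V` (a one-dimensional subspace of the plane): any two
lines parallel to `V`, that is, any two cosets `a + V` and `b + V`, contain the same number of
points of `S`. -/
def Equidistributed {p : ℕ} (S : Finset (ZMod p × ZMod p))
    (V : Submodule (ZMod p) (ZMod p × ZMod p)) : Prop :=
  ∀ a b : ZMod p × ZMod p,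
    {x : ZMod p × ZMod p | x ∈ S ∧ x - a ∈ V}.ncard = {x : ZMod p × ZMod p | x ∈ S ∧ x - b ∈ V}.ncard

/-- The number of directions (one-dimensional subspaces of the plane over `ZMod p`) in which `S`
is equidistributed. -/
noncomputable def numEqui {p : ℕ} (S : Finset (ZMod p × ZMod p)) : ℕ :=
  {V : Submodule (ZMod p) (ZMod p × ZMod p) |
    Module.finrank (ZMod p) V = 1 ∧ Equidistributed S V}.ncard

section

variable {p : ℕ} [Fact p.Prime]

/-- the linear form belonging to a slope -/
def form (d : Option (ZMod p)) : (ZMod p × ZMod p) →ₗ[ZMod p] ZMod p :=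
  d.elim (LinearMap.fst _ _ _) (fun m => LinearMap.snd _ _ _ - m • LinearMap.fst _ _ _)

lemma form_apply (d : Option (ZMod p)) (q : ZMod p × ZMod p) : form d q = H693R3.SpecDir.L d q := by
  cases d with
  | none => rfl
  | some m => simp [form, H693R3.SpecDir.L]

lemma form_surj (d : Option (ZMod p)) : Function.Surjective (form d) := by
  intro b
  cases d with
  | none => exact ⟨(b, 0), rfl⟩
  | some m => exact ⟨(0, b), by simp [form]⟩

/-- the direction of a slope -/
def dir (d : Option (ZMod p)) : Submodule (ZMod p) (ZMod p × ZMod p) := LinearMap.ker (form d)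

lemma finrank_dir (d : Option (ZMod p)) : Module.finrank (ZMod p) (dir d) = 1 := by
  have h := LinearMap.finrank_range_add_finrank_ker (form d)
  rw [LinearMap.range_eq_top.2 (form_surj d), finrank_top, Module.finrank_self] at h
  have h2 : Module.finrank (ZMod p) (ZMod p × ZMod p) = 2 := by
    rw [Module.finrank_prod, Module.finrank_self]
  rw [h2] at h
  change Module.finrank (ZMod p) (LinearMap.ker (form d)) = 1
  omega

lemma dir_inj : Function.Injective (dir : Option (ZMod p) → _) := by
  intro d e h
  cases d with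
  | none =>
    cases e with
    | none => rfl
    | some m =>
      exfalso
      have : ((0 : ZMod p), (1 : ZMod p)) ∈ dir (some m) := by
        rw [← h]; simp [dir, form]
      simp [dir, form] at this
  | some m =>
    cases e with
    | none =>
      exfalso
      have : ((0 : ZMod p), (1 : ZMod p)) ∈ dir (some m) := by
        rw [h]; simp [dir, form]
      simp [dir, form] at this
    | some m' =>
      have : ((1 : ZMod p), m) ∈ dir (some m') := by
        rw [← h]; simp [dir, form]
      simp [dir, form] at this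
      rw [sub_eq_zero] at this
      rw [this]

lemma exists_dir (V : Submodule (ZMod p) (ZMod p × ZMod p))
    (hV : Module.finrank (ZMod p) V = 1) : ∃ d, dir d = V := by
  obtain ⟨⟨v, hvV⟩, hv0, -⟩ := finrank_eq_one_iff'.1 hV
  have hv : v ≠ 0 := fun h => hv0 (Subtype.ext h)
  have key : ∀ d : Option (ZMod p), v ∈ dir d → dir d = V := by
    intro d hd
    have h1 : Submodule.span (ZMod p) {v} ≤ dir d := by
      rwa [Submodule.span_singleton_le_iff_mem]
    have h2 : Submodule.span (ZMod p) {v} ≤ V := by
      rwa [Submodule.span_singleton_le_iff_mem]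
    have h3 : Module.finrank (ZMod p) (Submodule.span (ZMod p) {v}) = 1 :=
      finrank_span_singleton hv
    have e1 := Submodule.eq_of_le_of_finrank_eq h1 (by rw [h3, finrank_dir])
    have e2 := Submodule.eq_of_le_of_finrank_eq h2 (by rw [h3, hV])
    rw [← e1, e2]
  by_cases h : v.1 = 0
  · exact ⟨none, key none (by simpa [dir, form] using h)⟩
  · refine ⟨some (v.2 / v.1), key _ ?_⟩
    simp only [dir, form, Option.elim_some, LinearMap.mem_ker, LinearMap.sub_apply,
      LinearMap.snd_apply, LinearMap.smul_apply, LinearMap.fst_apply, smul_eq_mul]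
    field_simp
    ring

open Classical in
lemma ncard_coset (S : Finset (ZMod p × ZMod p)) (d : Option (ZMod p)) (a : ZMod p × ZMod p) :
    {x : ZMod p × ZMod p | x ∈ S ∧ x - a ∈ dir d}.ncard
      = H693R3.SpecDir.N S d (H693R3.SpecDir.L d a) := by
  have : {x : ZMod p × ZMod p | x ∈ S ∧ x - a ∈ dir d}
      = ((S.filter (fun q => H693R3.SpecDir.L d q = H693R3.SpecDir.L d a) :
        Finset (ZMod p × ZMod p)) : Set (ZMod p × ZMod p)) := by
    ext x
    simp only [Set.mem_ofPred_eq, Finset.coe_filter, dir, LinearMap.mem_ker, map_sub, sub_eq_zero,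
      form_apply]
  rw [this, Set.ncard_coe_finset]
  rfl

lemma sum_N (S : Finset (ZMod p × ZMod p)) (d : Option (ZMod p)) :
    ∑ b : ZMod p, H693R3.SpecDir.N S d b = S.card := by
  classical
  unfold H693R3.SpecDir.N
  exact (Finset.card_eq_sum_card_fiberwise (fun x _ => Finset.mem_univ _)).symm

lemma equi_iff (S : Finset (ZMod p × ZMod p)) (d : Option (ZMod p)) :
    Equidistributed S (dir d) ↔ ∀ b, H693R3.SpecDir.N S d b * p = S.card := by
  unfold Equidistributed
  simp only [ncard_coset]
  constructor
  · intro h b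
    obtain ⟨a, ha⟩ := form_surj d b
    rw [form_apply] at ha
    have h1 : ∀ b', H693R3.SpecDir.N S d b' = H693R3.SpecDir.N S d b := by
      intro b'
      obtain ⟨a', ha'⟩ := form_surj d b'
      rw [form_apply] at ha'
      have := h a' a
      rwa [ha, ha'] at this
    rw [← sum_N S d, Finset.sum_congr rfl (fun b' _ => h1 b'), Finset.sum_const, Finset.card_univ,
      ZMod.card, smul_eq_mul, mul_comm]
  · intro h a b
    have hp : 0 < p := (Fact.out : p.Prime).pos
    exact Nat.eq_of_mul_eq_mul_right hp ((h _).trans (h _).symm)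

lemma numEqui_add (S : Finset (ZMod p × ZMod p)) :
    numEqui S + {d : Option (ZMod p) | ∃ b : ZMod p, H693R3.SpecDir.N S d b * p ≠ S.card}.ncard
      = p + 1 := by
  classical
  have h1 : {V : Submodule (ZMod p) (ZMod p × ZMod p) |
      Module.finrank (ZMod p) V = 1 ∧ Equidistributed S V}
      = dir '' {d : Option (ZMod p) | ∃ b : ZMod p, H693R3.SpecDir.N S d b * p ≠ S.card}ᶜ := by
    ext V
    simp only [Set.mem_ofPred_eq, Set.mem_image, Set.mem_compl_iff]
    constructor
    · rintro ⟨hV, hE⟩
      obtain ⟨d, rfl⟩ := exists_dir V hV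
      refine ⟨d, ?_, rfl⟩
      push Not
      exact (equi_iff S d).1 hE
    · rintro ⟨d, hd, rfl⟩
      push Not at hd
      exact ⟨finrank_dir d, (equi_iff S d).2 hd⟩
  unfold numEqui
  rw [h1, Set.ncard_image_of_injective _ dir_inj, add_comm, Set.ncard_add_ncard_compl,
    Nat.card_eq_fintype_card, Fintype.card_option, ZMod.card]

end

lemma tendsto_eps (k : ℕ) :
    Filter.Tendsto (fun p : ℕ => 4 * H693R3.SpecDir.eta p k + 2 / (p : ℝ)) Filter.atTop
      (nhds 0) := by
  have h1 : Filter.Tendsto (fun x : ℝ => x ^ (-(1 / 2 ^ k : ℝ)) * (1 + Real.log x))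
      Filter.atTop (nhds 0) := by
    have e1 : Filter.Tendsto (fun x : ℝ => x ^ (-(1 / 2 ^ k : ℝ))) Filter.atTop (nhds 0) :=
      tendsto_rpow_neg_atTop (by positivity)
    have e2 : Filter.Tendsto (fun x : ℝ => Real.log x / x ^ ((1 / 2 ^ k : ℝ))) Filter.atTop
        (nhds 0) :=
      (isLittleO_log_rpow_atTop (by positivity)).tendsto_div_nhds_zero
    have e3 := e1.add e2
    rw [add_zero] at e3
    refine e3.congr' ?_
    filter_upwards [Filter.eventually_gt_atTop 0] with x hx
    rw [Real.rpow_neg hx.le]
    field_simp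
  have h2 : Filter.Tendsto (fun p : ℕ => H693R3.SpecDir.eta p k) Filter.atTop (nhds 0) := by
    unfold H693R3.SpecDir.eta H693R3.SpecDir.sav
    exact h1.comp tendsto_natCast_atTop_atTop
  have h3 : Filter.Tendsto (fun p : ℕ => 2 / (p : ℝ)) Filter.atTop (nhds 0) :=
    tendsto_const_nhds.div_atTop tendsto_natCast_atTop_atTop
  have h4 := (h2.const_mul 4).add h3
  simpa using h4

/-- The claim of the problem is false: for some prime `p` and some `d ≤ p - 2` no subset of the
plane over `ZMod p` is equidistributed in exactly `d` directions. Moreover, for every fixed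
`k ≥ 4` and all sufficiently large primes `p`, the value `d = p + 1 - k` does not occur. -/
theorem result :
    (¬ ∀ p : ℕ, p.Prime → ∀ d : ℕ, d ≤ p - 2 → ∃ S : Finset (ZMod p × ZMod p), numEqui S = d) ∧
    (∀ k : ℕ, 4 ≤ k → ∃ p₀ : ℕ, ∀ p : ℕ, p.Prime → p₀ ≤ p →
      ∀ S : Finset (ZMod p × ZMod p), numEqui S ≠ p + 1 - k) := by
  have main : ∀ k : ℕ, 4 ≤ k → ∃ p₀ : ℕ, ∀ p : ℕ, p.Prime → p₀ ≤ p →
      ∀ S : Finset (ZMod p × ZMod p), numEqui S ≠ p + 1 - k := by
    intro k hk
    have h1 := (tendsto_eps k).eventually (gt_mem_nhds (show (0:ℝ) < 1 / 144 by norm_num))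
    obtain ⟨p₀, hp₀⟩ := Filter.eventually_atTop.mp h1
    refine ⟨max p₀ k, fun p hp hlt S hS => ?_⟩
    have : Fact p.Prime := ⟨hp⟩
    have hp0 : p₀ ≤ p := (le_max_left _ _).trans hlt
    have hpk : k ≤ p := (le_max_right _ _).trans hlt
    have hadd := numEqui_add S
    have hnc : {d : Option (ZMod p) | ∃ b : ZMod p,
        H693R3.SpecDir.N S d b * p ≠ S.card}.ncard = k := by omega
    by_cases hdvd : p ∣ S.card
    · exact H693R3.SpecDir.core k hk (hp₀ p hp0) S hdvd hnc
    · have hall : {d : Option (ZMod p) | ∃ b : ZMod p, H693R3.SpecDir.N S d b * p ≠ S.card}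
          = Set.univ := by
        ext d
        simp only [Set.mem_ofPred_eq, Set.mem_univ, iff_true]
        exact ⟨0, fun h => hdvd (Dvd.intro_left _ h)⟩
      rw [hall, Set.ncard_univ, Nat.card_eq_fintype_card, Fintype.card_option, ZMod.card] at hnc
      omega
  refine ⟨fun h => ?_, main⟩
  obtain ⟨p₀, hp₀⟩ := main 4 le_rfl
  obtain ⟨p, hpp, hp⟩ := Nat.exists_infinite_primes (max p₀ 5)
  have hp0 : p₀ ≤ p := (le_max_left _ _).trans hpp
  have hp5 : 5 ≤ p := (le_max_right _ _).trans hpp
  obtain ⟨S, hS⟩ := h p hp (p + 1 - 4) (by omega)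
  exact hp₀ p hp hp0 S hS

end Pool.Agent.Results.MP_ec4324_co.MissingDirectionCounts
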